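import Pool.Agent.H.MP_ccd76d_co.C

set_option autoImplicit false

namespace Pool.Agent.Results.MP_ccd76d_co.Yes

open Pool.Agent.H.MP_ccd76d_co.A Pool.Agent.H.MP_ccd76d_co.B Pool.Agent.H.MP_ccd76d_co.C
open Metric Set MeasureTheory

abbrev Sp (d : ℕ) := EuclideanSpace ℝ (Fin d)

variable {d : ℕ} {ι : Type}

/-- a packing of congruent copies of K -/
def Packing (K : Set (Sp d)) (C : ι → Set (Sp d)) : Prop :=
  (∀ i, ∃ φ : Sp d ≃ᵢ Sp d, C i = φ '' K) ∧
    Pairwise fun i j => Disjoint (interior (C i)) (interior (C j))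

/-- every packing obtained by replacing finitely many members is congruent to C -/
def Solid (K : Set (Sp d)) (C : ι → Set (Sp d)) : Prop :=
  ∀ C' : ι → Set (Sp d), Packing K C' → {i | C' i ≠ C i}.Finite →
    ∃ φ : Sp d ≃ᵢ Sp d, range C' = (fun S => φ '' S) '' range C

/-- uniformly finitely stable -/
def Stable (K : Set (Sp d)) (C : ι → Set (Sp d)) : Prop :=
  ∃ ε > 0, ∀ C' : ι → Set (Sp d), Packing K C' → {i | C' i ≠ C i}.Finite →
    (∀ i, hausdorffDist (C i) (C' i) < ε) → C' = C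

noncomputable def cen (S : Set (Sp d)) : Sp d := ⨍ x in S, x

lemma cen_map (u : Sp d ≃ᵃⁱ[ℝ] Sp d) (S : Set (Sp d)) (h : IsCompact S) (h0 : volume S ≠ 0) :
    cen (u '' S) = u (cen S) := by
  have mp : MeasurePreserving u volume volume := by
    have := (measurePreserving_add_right volume (u 0)).comp (L u).measurePreserving
    rwa [show ((fun x => x + u 0) ∘ L u) = u from funext fun x => (ap u x).symm] at this
  have em : MeasurableEmbedding u := u.toHomeomorph.measurableEmbedding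
  have v : volume (u '' S) = volume S := by
    rw [← mp.measure_preimage_emb em, preimage_image_eq _ u.injective]
  have i : IntegrableOn (fun x => x) S volume := continuousOn_id.integrableOn_compact h
  have p : (volume S).toReal ≠ 0 := ENNReal.toReal_ne_zero.2 ⟨h0, h.measure_ne_top⟩
  have e : (fun x => u x) = fun x => LC u x + u 0 := funext fun x => ap u x
  rw [cen, cen, setAverage_eq, setAverage_eq, mp.setIntegral_image_emb em, measureReal_def, v, e,
    integral_add ((LC u).integrable_comp i) (integrableOn_const h.measure_ne_top),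
    (LC u).integral_comp_comm i, setIntegral_const, ap u (_ • _), map_smul, smul_add, smul_smul,
    measureReal_def, inv_mul_cancel₀ p, one_smul]
  rfl

lemma aff (φ : Sp d ≃ᵢ Sp d) : ∃ u : Sp d ≃ᵃⁱ[ℝ] Sp d, ⇑φ = u :=
  ⟨φ.toRealAffineIsometryEquiv, φ.coeFn_toRealAffineIsometryEquiv.symm⟩

structure Body (r R : ℝ) (S : Set (Sp d)) : Prop where
  bal : ∃ c ∈ S, ball c r ⊆ S
  dia : ∀ x ∈ S, ∀ y ∈ S, dist x y ≤ R
  cvx : Convex ℝ S
  cpt : IsCompact S

lemma Body.im {r R : ℝ} {S : Set (Sp d)} (h : Body r R S) (u : Sp d ≃ᵃⁱ[ℝ] Sp d) :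
    Body r R (u '' S) := by
  obtain ⟨c, c1, c2⟩ := h.bal
  refine ⟨⟨u c, ⟨c, c1, rfl⟩, im_ball u c r S c2⟩, ?_, h.cvx.affine_image u.toAffineEquiv.toAffineMap,
    h.cpt.image u.continuous⟩
  rintro _ ⟨x, hx, rfl⟩ _ ⟨y, hy, rfl⟩
  rw [u.dist_map]; exact h.dia x hx y hy

lemma Body.vol {r R : ℝ} {S : Set (Sp d)} (h : Body r R S) (hr : 0 < r) : volume S ≠ 0 := by
  obtain ⟨c, -, c2⟩ := h.bal
  exact ((measure_ball_pos volume c hr).trans_le (measure_mono c2)).ne'

lemma Body.mem {r R : ℝ} {S : Set (Sp d)} (h : Body r R S) (hr : 0 < r) : cen S ∈ S :=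
  h.cvx.set_average_mem h.cpt.isClosed (h.vol hr) h.cpt.measure_ne_top
    (ae_restrict_mem h.cpt.measurableSet) (continuousOn_id.integrableOn_compact h.cpt)

lemma Body.near {r R ε : ℝ} {S T : Set (Sp d)} (h : Body r R S) (k : Body r R T)
    (e : hausdorffDist S T < ε) : Near ε S T := fun _ hx =>
  exists_dist_lt_of_hausdorffDist_lt hx e (hausdorffEDist_ne_top_of_nonempty_of_bounded
    ⟨_, h.bal.choose_spec.1⟩ ⟨_, k.bal.choose_spec.1⟩ h.cpt.isBounded k.cpt.isBounded)

lemma Packing.body {r R : ℝ} {K : Set (Sp d)} {C : ι → Set (Sp d)} (h : Packing K C)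
    (k : Body r R K) (i : ι) : Body r R (C i) := by
  obtain ⟨φ, e⟩ := h.1 i
  obtain ⟨u, hu⟩ := aff φ
  rw [e, hu]; exact k.im u

noncomputable def tr (v : Sp d) : Sp d ≃ᵃⁱ[ℝ] Sp d := AffineIsometryEquiv.constVAdd ℝ (Sp d) v

lemma dens {r R : ℝ} {K : Set (Sp d)} {C : ι → Set (Sp d)} (hr : 0 < r) (k : Body r R K)
    (h : Packing K C) (s : Solid K C) (i j : ι) (ij : j ≠ i) (x : Sp d) :
    ∃ S ∈ range C, dist (cen S) x ≤ 2 * R + 1 := by
  classical
  by_contra n
  push Not at n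
  have b := h.body k
  have hR : 0 ≤ R := dist_nonneg.trans ((b i).dia _ ((b i).mem hr) _ ((b i).mem hr))
  have : Countable ι := Pairwise.countable_of_isOpen_disjoint h.2 (fun _ => isOpen_interior)
    fun a => by
      obtain ⟨c, -, c2⟩ := (b a).bal
      exact ⟨c, interior_maximal c2 isOpen_ball (mem_ball_self hr)⟩
  set D := ‖x - cen (C j)‖ with hD
  have D0 : 0 < D := by
    have := n _ ⟨j, rfl⟩
    rw [dist_comm, dist_eq_norm] at this; linarith
  have sub : Ioo D (D + 1) ⊆ range fun q : ι × ι => dist (cen (C q.1)) (cen (C q.2)) := by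
    intro t ht
    set y := x + ((t - D) / D) • (x - cen (C j)) with hy
    have y1 : dist y x < 1 := by
      rw [hy, dist_self_add_left, norm_smul, ← hD, Real.norm_of_nonneg
        (div_nonneg (by linarith [ht.1]) D0.le), div_mul_cancel₀ _ D0.ne']
      linarith [ht.2]
    have y2 : dist y (cen (C j)) = t := by
      have : y - cen (C j) = (t / D) • (x - cen (C j)) := by
        rw [hy, sub_div, div_self D0.ne']; module
      rw [dist_eq_norm, this, norm_smul, ← hD, Real.norm_of_nonneg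
        (div_nonneg (by linarith [ht.1]) D0.le), div_mul_cancel₀ _ D0.ne']
    have c1 : cen (tr (y - cen (C i)) '' C i) = y := by
      rw [cen_map _ _ (b i).cpt ((b i).vol hr)]; simp [tr]
    have b1 := (b i).im (tr (y - cen (C i)))
    have dj : ∀ a, Disjoint (interior (tr (y - cen (C i)) '' C i)) (interior (C a)) := fun a =>
      disjoint_left.2 fun z z1 z2 => by
        have a1 := b1.dia _ (interior_subset z1) _ (b1.mem hr)
        have a2 := (b a).dia _ ((b a).mem hr) _ (interior_subset z2)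
        rw [c1] at a1
        linarith [n _ ⟨a, rfl⟩, dist_triangle4 (cen (C a)) z y x]
    obtain ⟨φ, e⟩ := s (Function.update C i (tr (y - cen (C i)) '' C i)) ⟨fun a => by
      by_cases e : a = i
      · obtain ⟨ψ, e2⟩ := h.1 i
        refine ⟨ψ.trans (tr (y - cen (C i))).toIsometryEquiv, ?_⟩
        rw [e, Function.update_self]
        nth_rewrite 2 [e2]
        rw [image_image]; rfl
      · rw [Function.update_of_ne e]; exact h.1 a, fun a a' ne => by
      beta_reduce
      by_cases e : a = i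
      · rw [e, Function.update_self, Function.update_of_ne (e ▸ ne).symm]; exact dj a'
      · rw [Function.update_of_ne e]
        by_cases e' : a' = i
        · rw [e', Function.update_self]; exact (dj a).symm
        · rw [Function.update_of_ne e']; exact h.2 ne⟩
      ((finite_singleton i).subset fun a ha => by_contra fun e => ha (Function.update_of_ne e _ _))
    obtain ⟨u, hu⟩ := aff φ
    obtain ⟨_, ⟨a, rfl⟩, e1⟩ := e ▸ mem_range_self (f := Function.update C i _) i
    obtain ⟨_, ⟨a', rfl⟩, e2⟩ := e ▸ mem_range_self (f := Function.update C i _) j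
    simp only [hu, Function.update_self, Function.update_of_ne ij] at e1 e2
    refine ⟨(a, a'), ?_⟩
    rw [← y2, ← c1, ← e1, ← e2, cen_map _ _ (b a).cpt ((b a).vol hr),
      cen_map _ _ (b a').cpt ((b a').vol hr), u.dist_map]
  have := measure_mono_null (μ := volume) sub ((countable_range _).measure_zero _)
  simp at this

lemma main {r R : ℝ} {K : Set (Sp d)} {C : ι → Set (Sp d)} (hr : 0 < r) (k : Body r R K)
    (h : Packing K C) (s : Solid K C) (i j : ι) (ij : j ≠ i) : Stable K C := by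
  have b := h.body k
  have hR : 0 ≤ R := dist_nonneg.trans ((b i).dia _ ((b i).mem hr) _ ((b i).mem hr))
  have b' : ∀ S ∈ range C, Body r R S := by rintro _ ⟨a, rfl⟩; exact b a
  have sy : Sys (range C) cen r R (2 * R + 1) := ⟨hr, by linarith, hR, fun S m => (b' S m).bal,
    fun S m => (b' S m).dia, fun S m => (b' S m).mem hr,
    fun S m u e => by rw [← cen_map u S (b' S m).cpt ((b' S m).vol hr), e], by
      rintro _ ⟨a, rfl⟩ _ ⟨a', rfl⟩ ne
      exact h.2 fun e => ne (by rw [e]),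
    dens hr k h s i j ij, fun S m => (b' S m).cvx, fun S m => (b' S m).cpt⟩
  have sp : ∀ S ∈ range C, ∀ T ∈ range C, Near (r / 8) S T → S = T := fun S hS T hT n => by
    obtain ⟨c, -, c2⟩ := (b' S hS).bal
    refine sepH sy S T hS hT c (interior_maximal c2 isOpen_ball (mem_ball_self hr)) fun y hy => ?_
    obtain ⟨z, z1, z2⟩ := n y (c2 hy)
    exact ⟨z, z1, by linarith⟩
  obtain ⟨δ, δ0, hδ⟩ := gap sy {g | ∃ C' : ι → Set (Sp d), Packing K C' ∧ {i | C' i ≠ C i}.Finite ∧
      (∀ i, hausdorffDist (C i) (C' i) < r / 8) ∧ range C' = (fun S => g '' S) '' range C} (by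
    rintro g ⟨C', -, f, -, e⟩
    refine ⟨(f.image fun a => ⇑(g⁻¹) '' C' a).subset fun S hS => ?_, (f.image C).subset ?_⟩
    · obtain ⟨a, ha⟩ : g '' S ∈ range C' := e ▸ ⟨S, hS.1, rfl⟩
      exact ⟨a, fun e => hS.2 ⟨a, by rw [← e, ha]⟩, by simp only [ha, im_inv]⟩
    · rintro _ ⟨⟨a, rfl⟩, n⟩
      refine ⟨a, fun e' => n ?_, rfl⟩
      obtain ⟨S, hS, e2⟩ := e ▸ mem_range_self (f := C') a
      rw [← e', ← e2, im_inv]; exact hS) (by
    rintro g ⟨C', p, -, n, e⟩ g' ⟨C'', p', -, n', e'⟩ _ ⟨a, rfl⟩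
    obtain ⟨S, hS, e2⟩ := e' ▸ mem_range_self (f := C'') a
    obtain ⟨a', e3⟩ : g '' S ∈ range C' := e ▸ ⟨S, hS, rfl⟩
    refine ⟨C a', ⟨a', rfl⟩, ?_⟩
    rintro _ ⟨y, hy, rfl⟩
    obtain ⟨z, z1, z2⟩ := (b a).near (p'.body k a) (n' a) y hy
    rw [← e2] at z1
    obtain ⟨z, z1, rfl⟩ := z1
    obtain ⟨w, w1, w2⟩ := (p.body k a').near (b a') (hausdorffDist_comm.trans_lt (n a')) (g z)
      (e3 ▸ ⟨z, z1, rfl⟩)
    refine ⟨w, w1, ?_⟩
    rw [← (g * g'⁻¹).dist_map, mul_ap g _ (g' z), inv_ap] at z2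
    linarith [dist_triangle ((g * g'⁻¹) y) (g z) w])
  refine ⟨min δ (r / 8), by positivity, fun C' p f n => funext fun a => by_contra fun ne => ?_⟩
  obtain ⟨φ, e⟩ := s C' p f
  obtain ⟨g, hg⟩ := aff φ
  rw [hg] at e
  have n2 := fun a => (n a).trans_le (min_le_right _ _)
  obtain ⟨S, hS, e2⟩ := e ▸ mem_range_self (f := C') a
  simp only at e2
  have nr := (b a).near (p.body k a) (n2 a)
  refine absurd (hδ g ⟨C', p, f, n2, e⟩ (C a) ⟨a, rfl⟩ S hS (fun m => ne ?_) fun m => ne ?_) ?_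
  · rw [← e2, ← sp _ m S hS, inv_im]
    rintro _ ⟨y, hy, rfl⟩
    obtain ⟨z, z1, z2⟩ := nr y hy
    rw [← e2] at z1
    obtain ⟨z, z1, rfl⟩ := z1
    exact ⟨z, z1, by rwa [← g⁻¹.dist_map, inv_ap] at z2⟩
  · exact (sp _ ⟨a, rfl⟩ _ (e2 ▸ m) nr).symm
  · rw [e2, not_le]; exact (n a).trans_le (min_le_left _ _)

theorem result (d : ℕ) (K : Set (Sp d)) (h1 : IsCompact K) (h2 : Convex ℝ K)
    (h3 : (interior K).Nonempty) :
    (∀ (ι : Type) (C : ι → Set (Sp d)), (∀ i : ι, ∃ j, j ≠ i) → Packing K C → Solid K C →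
      Stable K C) ∧
    (1 ≤ d → Packing K (fun _ : Unit => K) ∧ Solid K (fun _ : Unit => K) ∧
      ¬ Stable K (fun _ : Unit => K)) := by
  obtain ⟨c, hc⟩ := h3
  obtain ⟨r, hr, hb⟩ := Metric.isOpen_iff.1 isOpen_interior c hc
  have k : Body r (diam K) K := ⟨⟨c, interior_subset hc, hb.trans interior_subset⟩,
    fun x hx y hy => dist_le_diam_of_mem h1.isBounded hx hy, h2, h1⟩
  refine ⟨fun ι C nt h s => ?_, fun hd => ⟨⟨fun _ => ⟨IsometryEquiv.refl _, (image_id _).symm⟩,
    Subsingleton.pairwise⟩, fun C' p _ => ?_, fun ⟨ε, e0, h⟩ => ?_⟩⟩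
  · rcases isEmpty_or_nonempty ι with e | ⟨⟨i⟩⟩
    · exact ⟨1, one_pos, fun C' _ _ _ => Subsingleton.elim _ _⟩
    · obtain ⟨j, ij⟩ := nt i
      exact main hr k h s i j ij
  · obtain ⟨φ, e⟩ := p.1 ()
    exact ⟨φ, by rw [range_unique, range_const, image_singleton, ← e]⟩
  · let v : Sp d := EuclideanSpace.single ⟨0, hd⟩ (ε / 2)
    have nv : ‖v‖ = ε / 2 := by simp [v, abs_of_pos e0]
    have := congrFun (h (fun _ => tr v '' K) ⟨fun _ => ⟨(tr v).toIsometryEquiv, rfl⟩,
      Subsingleton.pairwise⟩ (toFinite _) fun _ => lt_of_le_of_lt (hausdorffDist_le_of_mem_dist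
        (r := ε / 2) (by linarith) (fun x hx => ⟨_, ⟨x, hx, rfl⟩, by simp [tr, nv]⟩)
        (by rintro _ ⟨x, hx, rfl⟩; exact ⟨x, hx, by simp [tr, nv]⟩)) (by linarith)) ()
    have e := cen_map (tr v) K h1 (k.vol hr)
    rw [this] at e
    have : v = 0 := by simpa [tr] using e
    rw [this, norm_zero] at nv
    linarith

end Pool.Agent.Results.MP_ccd76d_co.Yes
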